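import Pool.Agent.W700.GFin

/-!
# A free space `F(M, ω ∘ d)`, with `M` compact and `ω` a nontrivial gauge, without the
approximation property

Answer to Q2 of MP_136c99_an.
-/

set_option autoImplicit false

open Set Filter Topology

namespace Pool.Agent.Results.MP_136c99_an.GaugeCase

/-- `ω` is a gauge: a continuous, subadditive, increasing function from `[0,∞)` to `[0,∞)` with
`ω(0) = 0` and `ω(t) ≥ t` for `t` in `[0,1]` (its values at the negative numbers do not matter). -/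
structure IsGauge (ω : ℝ → ℝ) : Prop where
  nonneg : ∀ s, 0 ≤ s → 0 ≤ ω s
  continuousOn : ContinuousOn ω (Ici 0)
  subadditive : ∀ s t, 0 ≤ s → 0 ≤ t → ω (s + t) ≤ ω s + ω t
  monotoneOn : MonotoneOn ω (Ici 0)
  zero : ω 0 = 0
  ge : ∀ t ∈ Icc (0 : ℝ) 1, t ≤ ω t

/-- `ω` is a nontrivial gauge: moreover `ω(t)/t → ∞` as `t → 0`, `t > 0`. -/
def IsNontrivialGauge (ω : ℝ → ℝ) : Prop :=
  IsGauge ω ∧ Tendsto (fun t => ω t / t) (𝓝[>] 0) atTop

/-- The Banach space `E` together with `δ : M → E` is the Lipschitz-free space of the metric space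
`(M, ρ)` with the base point `x0`: `δ x0 = 0`, `δ` is isometric, its range spans a dense subspace,
and each function on `M` vanishing at `x0` that is `1`-Lipschitz for `ρ` extends to a linear
functional on `E` of norm at most `1`. -/
structure IsFreeSpace (M : Type) (ρ : M → M → ℝ) (x0 : M) (E : Type) [NormedAddCommGroup E]
    [NormedSpace ℝ E] (δ : M → E) : Prop where
  base : δ x0 = 0
  isometric : ∀ x y : M, ‖δ x - δ y‖ = ρ x y
  dense : Dense ((Submodule.span ℝ (Set.range δ) : Submodule ℝ E) : Set E)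
  extend : ∀ f : M → ℝ, f x0 = 0 → (∀ a b : M, |f a - f b| ≤ ρ a b) →
    ∃ φ : E →L[ℝ] ℝ, ‖φ‖ ≤ 1 ∧ ∀ x : M, φ (δ x) = f x

/-- The approximation property. -/
def HasAP (E : Type) [NormedAddCommGroup E] [NormedSpace ℝ E] : Prop :=
  ∀ K : Set E, IsCompact K → ∀ ε : ℝ, 0 < ε → ∃ T : E →L[ℝ] E,
    FiniteDimensional ℝ (LinearMap.range (T : E →ₗ[ℝ] E)) ∧ ∀ z ∈ K, ‖T z - z‖ ≤ ε

/-- The metric approximation property. -/
def HasMAP (E : Type) [NormedAddCommGroup E] [NormedSpace ℝ E] : Prop :=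
  ∀ K : Set E, IsCompact K → ∀ ε : ℝ, 0 < ε → ∃ T : E →L[ℝ] E,
    FiniteDimensional ℝ (LinearMap.range (T : E →ₗ[ℝ] E)) ∧ ‖T‖ ≤ 1 ∧ ∀ z ∈ K, ‖T z - z‖ ≤ ε

/-- Q2: for every proper pointed metric space `M` and every nontrivial gauge `ω`, the free space
`F(M, ω ∘ d)` has the metric approximation property. -/
def Q2 : Prop :=
  ∀ (M : Type) [MetricSpace M] [ProperSpace M] (x0 : M) (ω : ℝ → ℝ), IsNontrivialGauge ω →
    ∀ (E : Type) [NormedAddCommGroup E] [NormedSpace ℝ E] [CompleteSpace E] (δ : M → E),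
      IsFreeSpace M (fun x y => ω (dist x y)) x0 E δ → HasMAP E

/-- the gauges of the library are nontrivial gauges -/
theorem isNontrivialGauge (T : W700.Gauge.Tau) : IsNontrivialGauge T.om := by
  refine ⟨⟨fun s hs => T.om_nonneg hs, ?_, fun s t hs ht => T.om_add hs ht, ?_, T.om_zero,
    fun t ht => T.le_om ht.1⟩, ?_⟩
  · intro s hs
    rw [Metric.continuousWithinAt_iff]
    intro ε hε
    obtain ⟨η, hη, h⟩ := T.om_small (half_pos hε)
    refine ⟨η, hη, fun {t} ht hts => ?_⟩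
    rw [Real.dist_eq] at hts ⊢
    have key : ∀ a b : ℝ, 0 ≤ a → a ≤ b → b - a < η → |T.om b - T.om a| < ε := by
      intro a b ha hab hlt
      rw [abs_of_nonneg (sub_nonneg.2 (T.om_mono ha hab))]
      have h1 := T.om_add ha (sub_nonneg.2 hab)
      rw [add_sub_cancel] at h1
      have h2 := h (b - a) (sub_nonneg.2 hab) hlt
      linarith
    rcases le_total s t with h1 | h1
    · exact key s t hs h1 (by rw [abs_of_nonneg (sub_nonneg.2 h1)] at hts; exact hts)
    · rw [abs_sub_comm]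
      exact key t s ht h1 (by
        rw [abs_sub_comm, abs_of_nonneg (sub_nonneg.2 h1)] at hts; exact hts)
  · intro s hs t _ hst
    exact T.om_mono hs hst
  · rw [tendsto_atTop]
    intro B
    have hB : 0 < max B 1 := lt_of_lt_of_le one_pos (le_max_right _ _)
    obtain ⟨η, hη, h⟩ := T.le_mul_om (inv_pos.2 hB)
    rw [eventually_nhdsWithin_iff]
    filter_upwards [gt_mem_nhds hη] with t ht ht0
    have ht0' : 0 < t := ht0
    have h1 := h t ht0'.le ht
    rw [inv_mul_eq_div, le_div_iff₀ hB] at h1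
    rw [le_div_iff₀ ht0']
    calc B * t ≤ max B 1 * t := mul_le_mul_of_nonneg_right (le_max_left _ _) ht0'.le
      _ = t * max B 1 := mul_comm _ _
      _ ≤ T.om t := h1

/-- the gauges of the library are strictly increasing -/
theorem strictMonoOn (T : W700.Gauge.Tau) : StrictMonoOn T.om (Ici 0) := by
  intro s hs t ht hst
  have h := (T.summable_min hs).tsum_le_tsum (fun m => min_le_min_right (T.t m) hst.le)
    (T.summable_min ht)
  show s + ∑' m, min s (T.t m) < t + ∑' m, min t (T.t m)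
  linarith

/-- There are a compact metric space `M` and a (strictly increasing) nontrivial gauge `ω` such that
the free space `F(M, ω ∘ d)` fails even the approximation property. Hence Q2 has a negative
answer. -/
theorem result :
    (∃ (M : Type) (_ : MetricSpace M) (_ : CompactSpace M) (x0 : M) (ω : ℝ → ℝ),
      IsNontrivialGauge ω ∧ StrictMonoOn ω (Ici 0) ∧
      ∃ (E : Type) (_ : NormedAddCommGroup E) (_ : NormedSpace ℝ E) (_ : CompleteSpace E)
        (δ : M → E), IsFreeSpace M (fun x y => ω (dist x y)) x0 E δ ∧ ¬ HasAP E) ∧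
    ¬ Q2 := by
  have main : ∃ (M : Type) (_ : MetricSpace M) (_ : CompactSpace M) (x0 : M) (ω : ℝ → ℝ),
      IsNontrivialGauge ω ∧ StrictMonoOn ω (Ici 0) ∧
      ∃ (E : Type) (_ : NormedAddCommGroup E) (_ : NormedSpace ℝ E) (_ : CompleteSpace E)
        (δ : M → E), IsFreeSpace M (fun x y => ω (dist x y)) x0 E δ ∧ ¬ HasAP E := by
    obtain ⟨T, C, hC, hC0, hbad⟩ := Pool.Agent.W700.Gauge.exists_bad
      (Pool.Agent.H548R3.NoAP.exists_data Pool.Agent.Helper362.Hap.dat)
    obtain ⟨E, _, _, _, δ, h1, h2, h3, h4, β, hβ⟩ := Pool.Agent.W700.Gauge.exists_free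
      (Pool.Agent.W700.Gauge.GM T C) ⟨0, hC0⟩ _ (fun x => x.pt) rfl
      (fun x y => Pool.Agent.W700.Gauge.GM.norm_le_dist x y)
    have hcomp : CompactSpace C := isCompact_iff_compactSpace.1 hC
    refine ⟨C, inferInstance, hcomp, ⟨0, hC0⟩, T.om, isNontrivialGauge T, strictMonoOn T,
      E, _, _, ‹CompleteSpace E›, fun x => δ ⟨x.1, x.2⟩, ⟨h1, ?_, ?_, ?_⟩, ?_⟩
    · intro x y
      rw [h2, W700.Gauge.GM.dist_def, Subtype.dist_eq, dist_eq_norm]
    · have hr : Set.range (fun x : C => δ ⟨x.1, x.2⟩) = Set.range δ := by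
        ext z
        constructor
        · rintro ⟨x, rfl⟩
          exact ⟨_, rfl⟩
        · rintro ⟨x, rfl⟩
          exact ⟨⟨x.pt, x.mem⟩, rfl⟩
      rw [hr]
      exact h3
    · intro f hf0 hf
      obtain ⟨φ, hφ, hφf⟩ := h4 (fun x => f ⟨x.pt, x.mem⟩) hf0 (fun a b => by
        refine (hf ⟨a.pt, a.mem⟩ ⟨b.pt, b.mem⟩).trans ?_
        rw [W700.Gauge.GM.dist_def, Subtype.dist_eq, dist_eq_norm])
      exact ⟨φ, hφ, fun x => hφf ⟨x.1, x.2⟩⟩
    · intro hAP
      obtain ⟨K, hK, ε, hε, hKR⟩ := hbad E δ h2 β hβ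
      obtain ⟨R, hR, hRz⟩ := hAP K hK ε hε
      obtain ⟨z, hz, hlt⟩ := hKR R hR
      exact absurd (hRz z hz) (not_le.2 hlt)
  refine ⟨main, fun hQ => ?_⟩
  obtain ⟨M, _, _, x0, ω, hω, -, E, _, _, _, δ, hfree, hAP⟩ := main
  apply hAP
  intro K hK ε hε
  obtain ⟨T, hT, -, hTz⟩ := hQ M x0 ω hω E δ hfree K hK ε hε
  exact ⟨T, hT, hTz⟩

end Pool.Agent.Results.MP_136c99_an.GaugeCase
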